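import Mathlib

/-!
Free sets of a sequence of relations.
-/

namespace Pool.Agent.MP_2aae10_lc.H6

/-- No tuple of pairwise distinct points of `A` lies in one of the relations `R k`. -/
def Free {X : Type} {n : ℕ → ℕ} (R : ∀ k : ℕ, Set (Fin (n k) → X)) (A : Set X) : Prop :=
  ∀ (k : ℕ) (f : Fin (n k) → X), Function.Injective f → (∀ i, f i ∈ A) → f ∉ R k

end Pool.Agent.MP_2aae10_lc.H6
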