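import Pool.Agent.MP_2aae10_lc.Mg.Reduce
import Pool.Agent.MP_2aae10_lc.H6.Defs

/-!
Dense completely Baire free sets for `F_σ` relations whose spans contain no uncountable free set.
-/

namespace Pool.Agent.MP_2aae10_lc.H6

open Set Filter Topology Metric Cardinal

/-- Hurewicz: a metric space that is not Baire contains a closed crowded countable set. -/
lemma hurewicz {Z : Type} [MetricSpace Z] (h : ¬ BaireSpace Z) :
    ∃ Q : Set Z, Q.Countable ∧ Q.Nonempty ∧ IsClosed Q ∧ Preperfect Q := by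
  obtain ⟨U, hU, hd, O, hO, ⟨q0, hq0⟩, hOU⟩ : ∃ U : ℕ → Set Z, (∀ j, IsOpen (U j)) ∧
      (∀ j, Dense (U j)) ∧ ∃ O, IsOpen O ∧ O.Nonempty ∧ ∀ x ∈ O, ¬ ∀ j, x ∈ U j := by
    by_contra c
    push Not at c
    refine h ⟨fun U a b => dense_iff_inter_open.2 fun O hO hne => ?_⟩
    obtain ⟨x, hx, hx'⟩ := c U a b O hO hne
    exact ⟨x, hx, mem_iInter.2 hx'⟩
  have step : ∀ (j : ℕ) (p : Z × ℝ) (m : ℕ), 0 < p.2 → closedBall p.1 p.2 ⊆ O → ∃ p' : Z × ℝ,
      0 < p'.2 ∧ p'.1 ≠ p.1 ∧
        closedBall p'.1 p'.2 ⊆ ball p.1 (min p.2 (1 / ((m : ℝ) + 1))) ∩ U j := by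
    intro j p m h0 h1
    have e : 0 < min p.2 (1 / ((m : ℝ) + 1)) := lt_min h0 (by positivity)
    have ne : (ball p.1 (min p.2 (1 / ((m : ℝ) + 1))) \ {p.1}).Nonempty := by
      by_contra c
      rw [not_nonempty_iff_eq_empty, sdiff_eq_empty] at c
      refine hOU p.1 (h1 (mem_closedBall_self h0.le)) fun i => ?_
      obtain ⟨x, hx, hx'⟩ := (hd i).inter_open_nonempty _ isOpen_ball (nonempty_ball.2 e)
      exact c hx ▸ hx'
    obtain ⟨x, hx, hx'⟩ := (hd j).inter_open_nonempty _ (isOpen_ball.sdiff isClosed_singleton) ne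
    obtain ⟨r, hr, hr'⟩ := nhds_basis_closedBall.mem_iff.1
      ((isOpen_ball.inter (hU j)).mem_nhds ⟨hx.1, hx'⟩)
    exact ⟨(x, r), hr, hx.2, hr'⟩
  choose! st s0 s1 s2 using step
  obtain ⟨r0, hr0, hr0'⟩ := nhds_basis_closedBall.mem_iff.1 (hO.mem_nhds hq0)
  let nd : List ℕ → Z × ℝ := fun l => l.rec (q0, r0) fun m s p => st s.length p m
  have nd_cons : ∀ m s, nd (m :: s) = st s.length (nd s) m := fun _ _ => rfl
  have inv : ∀ s, 0 < (nd s).2 ∧ closedBall (nd s).1 (nd s).2 ⊆ O := by
    intro s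
    induction s with
    | nil => exact ⟨hr0, hr0'⟩
    | cons m s ih =>
      exact ⟨s0 _ _ _ ih.1 ih.2, fun x hx => ih.2 (ball_subset_closedBall
        (ball_subset_ball (min_le_left _ _) (s2 _ _ _ ih.1 ih.2 hx).1))⟩
  have sub := fun m s => s2 s.length (nd s) m (inv s).1 (inv s).2
  let T : List ℕ → Set Z := fun s => range fun t => (nd (t ++ s)).1
  have hT : ∀ s, closure (T s) ⊆ closedBall (nd s).1 (nd s).2 := by
    intro s
    refine closure_minimal ?_ isClosed_closedBall
    rintro _ ⟨t, rfl⟩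
    suffices closedBall (nd (t ++ s)).1 (nd (t ++ s)).2 ⊆ closedBall (nd s).1 (nd s).2 from
      this (mem_closedBall_self (inv _).1.le)
    induction t with
    | nil => exact Subset.rfl
    | cons m t ih => exact fun x hx => ih (ball_subset_closedBall
        (ball_subset_ball (min_le_left _ _) (sub m _ hx).1))
  refine ⟨T [], countable_range _, range_nonempty _, closure_subset_iff_isClosed.1 fun x hx => ?_,
    preperfect_iff_nhds.2 ?_⟩
  · by_contra c
    have key : ∀ j, ∃ s : List ℕ, s.length = j ∧ x ∈ closure (T s) := by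
      intro j
      induction j with
      | zero => exact ⟨[], rfl, hx⟩
      | succ j ih =>
        obtain ⟨s, rfl, hs⟩ := ih
        have ne : (nd s).1 ≠ x := fun e => c ⟨s, by simpa using e⟩
        obtain ⟨N, hN⟩ := exists_nat_one_div_lt (dist_pos.2 ne.symm)
        have cov : T s ⊆ closedBall (nd s).1 (1 / ((N : ℝ) + 1)) ∪ ⋃ m ∈ Iio N, T (m :: s) := by
          rintro _ ⟨t, rfl⟩
          rcases t.eq_nil_or_concat with rfl | ⟨t, m, rfl⟩
          · exact Or.inl (mem_closedBall_self (by positivity))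
          · have mem : (nd (t.concat m ++ s)).1 ∈ T (m :: s) := ⟨t, by simp⟩
            rcases lt_or_ge m N with a | a
            · exact Or.inr (mem_biUnion a mem)
            · exact Or.inl (ball_subset_closedBall (ball_subset_ball
                ((min_le_right _ _).trans (Nat.one_div_le_one_div a))
                (sub m s (hT _ (subset_closure mem))).1))
        have := closure_mono cov hs
        rw [closure_union, (finite_Iio N).closure_biUnion, isClosed_closedBall.closure_eq] at this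
        rcases this with a | a
        · exact absurd a (not_le.2 hN)
        · obtain ⟨m, -, a⟩ := mem_iUnion₂.1 a
          exact ⟨m :: s, rfl, a⟩
    refine hOU x (hr0' (hT [] hx)) fun j => ?_
    obtain ⟨_ | ⟨m, s⟩, a, b⟩ := key (j + 1)
    · simp at a
    · obtain rfl : s.length = j := by simpa using a
      exact (sub m s (hT _ b)).2
  · rintro _ ⟨t, rfl⟩ V hV
    obtain ⟨ε, hε, hV⟩ := Metric.mem_nhds_iff.1 hV
    obtain ⟨N, hN⟩ := exists_nat_one_div_lt hε
    refine ⟨(nd (N :: (t ++ []))).1, ⟨hV (ball_subset_ball ((min_le_right _ _).trans hN.le)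
      (sub N _ (mem_closedBall_self (inv (N :: (t ++ []))).1.le)).1), N :: t, rfl⟩,
      s1 _ _ _ (inv _).1 (inv _).2⟩

variable {X : Type} {n : ℕ → ℕ}

lemma Free.mono {R : ∀ k : ℕ, Set (Fin (n k) → X)} {A B : Set X} (h : Free R A) (hB : B ⊆ A) :
    Free R B := fun k f a b => h k f a fun i => hB (b i)

/-- Mycielski: a free set of size continuum. -/
lemma mycielski [TopologicalSpace X] [PolishSpace X] [PerfectSpace X] [Nonempty X]
    {R : ∀ k : ℕ, Set (Fin (n k) → X)} (hR : ∀ k, IsMeagre (R k)) :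
    ∃ ψ : (ℕ → Bool) → X, Function.Injective ψ ∧ Free R (range ψ) := by
  classical
  let := TopologicalSpace.upgradeIsCompletelyMetrizable X
  choose D hDo hDd hDR using fun k => exists_dense_open_seq (hR k)
  obtain ⟨P, W, h⟩ := exists_scheme n D hDo hDd
  let c : (ℕ → Bool) → ℕ → Bool := fun y m => if m % 2 = 0 then y (m / 2) else true
  have c0 : ∀ y m, c y (2 * m) = y m := fun y m => by simp [c]
  have c1 : ∀ y m, c y (2 * m + 1) = true := fun y m => by simp [c]
  choose ψ hψ using fun y => h.exists_point (y := c y)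
    (infinite_of_injective_forall_mem (f := fun m => 2 * m + 1) (fun a b e => by
      simpa using e) (c1 y))
  have sep : ∀ y z a m, y a ≠ z a → 2 * a < m → res (c y) m ≠ res (c z) m := fun y z a m e l k =>
    e (by rw [← c0 y, ← c0 z]; exact congrFun k ⟨2 * a, l⟩)
  refine ⟨ψ, fun y z e => ?_, fun k f hf hfA => ?_⟩
  · by_contra ne
    obtain ⟨a, ha⟩ := Function.ne_iff.1 ne
    exact sep y z a _ ha (Nat.lt_succ_self _) (h.uniq _ _ _ (hψ y _) (e ▸ hψ z _))
  · choose g hg using hfA
    have : ∀ p : Fin (n k) × Fin (n k), ∀ᶠ m in atTop,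
        res (c (g p.1)) m = res (c (g p.2)) m → p.1 = p.2 := by
      intro p
      by_cases hp : g p.1 = g p.2
      · exact Eventually.of_forall fun _ _ => hf (by rw [← hg, ← hg, hp])
      · obtain ⟨a, ha⟩ := Function.ne_iff.1 hp
        filter_upwards [eventually_gt_atTop (2 * a)] with m hm e using absurd e (sep _ _ a m ha hm)
    obtain ⟨N, hN⟩ := eventually_atTop.1 (eventually_all.2 this)
    refine hDR k f fun l => h.gen (2 * (N + k + l) + 1) k (by omega) l (by omega)
      (fun j => res (c (g j)) _) (fun i j => hN _ (by omega) (i, j)) f fun j => ?_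
    rw [← hg j, ← h.succ_res (c1 _ _)]
    exact hψ _ _

lemma exists_big {Z : Type} [TopologicalSpace Z] [PolishSpace Z] [PerfectSpace Z] [Nonempty Z]
    {R : ∀ k : ℕ, Set (Fin (n k) → X)} {ι : Z → X} (hι : Function.Injective ι)
    (hR : ∀ k, IsMeagre ((fun (f : Fin (n k) → Z) i => ι (f i)) ⁻¹' R k)) :
    ∃ B ⊆ range ι, Free R B ∧ 𝔠 ≤ #B := by
  obtain ⟨ψ, h1, h2⟩ := mycielski hR
  refine ⟨range (ι ∘ ψ), range_comp_subset_range _ _, fun k f hf hB hk => ?_, ?_⟩
  · choose g hg using hB
    refine h2 k (fun i => ψ (g i)) (fun i j e => hf ?_) (fun i => mem_range_self _) ?_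
    · rw [← hg, ← hg]
      exact congrArg ι e
    · rwa [← funext hg] at hk
  · rw [mk_range_eq _ (hι.comp h1)]
    simp

lemma perfectSpace_of [TopologicalSpace X] {K : Set X} (h : Preperfect K) : PerfectSpace K := by
  refine ⟨preperfect_iff_nhds.2 fun x _ U hU => ?_⟩
  obtain ⟨V, hV, hVU⟩ := (mem_nhds_subtype _ _ _).1 hU
  obtain ⟨y, hy, ne⟩ := preperfect_iff_nhds.1 h x x.2 V hV
  exact ⟨⟨y, hy.2⟩, ⟨hVU hy.1, trivial⟩, fun e => ne (congrArg Subtype.val e)⟩

lemma dense_inj {Z : Type} [TopologicalSpace Z] [T2Space Z] [PerfectSpace Z] {Q : Set Z}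
    (hQ : Dense Q) (m : ℕ) : Dense {f : Fin m → Z | Function.Injective f ∧ ∀ i, f i ∈ Q} := by
  have h1 : ∀ p : Fin m × Fin m, IsOpen {f : Fin m → Z | p.1 ≠ p.2 → f p.1 ≠ f p.2} ∧
      Dense {f : Fin m → Z | p.1 ≠ p.2 → f p.1 ≠ f p.2} := by
    rintro ⟨i, j⟩
    by_cases e : i = j
    · simp [e]
    simp only [ne_eq, e, not_false_eq_true, forall_const]
    refine ⟨isOpen_ne_fun (by fun_prop) (by fun_prop), fun f => ?_⟩
    by_cases k : f i = f j
    · have t : Tendsto (Function.update f i) (𝓝[≠] f i) (𝓝 f) := by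
        have c : Continuous (Function.update f i) := continuous_const.update i continuous_id
        simpa using (c.tendsto (f i)).mono_left (nhdsWithin_le_nhds (s := {f i}ᶜ))
      refine mem_closure_of_tendsto t (eventually_nhdsWithin_of_forall fun x hx => ?_)
      simpa [Function.update_of_ne (Ne.symm e), ← k] using hx
    · exact subset_closure k
  have h2 : ∀ s : Finset (Fin m × Fin m),
      Dense ((⋂ p ∈ s, {f : Fin m → Z | p.1 ≠ p.2 → f p.1 ≠ f p.2}) ∩ univ.pi fun _ => Q) := by
    intro s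
    induction s using Finset.induction_on with
    | empty => simpa using dense_pi univ fun _ _ => hQ
    | insert p s _ ih =>
      rw [Finset.set_biInter_insert, inter_assoc]
      exact (h1 p).2.inter_of_isOpen_left ih (h1 p).1
  refine (h2 Finset.univ).mono fun f hf => ⟨fun i j e => ?_, fun i => hf.2 i trivial⟩
  by_contra ne
  exact mem_iInter₂.1 hf.1 (i, j) (Finset.mem_univ _) ne e

/-- The recursion of length continuum. -/
lemma bernstein {R : ∀ k : ℕ, Set (Fin (n k) → X)} (hn : ∀ k, 1 ≤ n k)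
    (hs : ∀ F : Set X, F.Finite → Free R F → ∀ B, Free R B →
      (∀ x ∈ B, ¬ Free R (insert x F)) → B.Countable)
    {ι : Type} (hι : #ι ≤ 𝔠) (B : ι → Set X) (hB : ∀ i, Free R (B i) ∧ 𝔠 ≤ #(B i)) :
    ∃ A, Free R A ∧ ∀ i, (A ∩ B i).Nonempty := by
  classical
  have step : ∀ (i : ι) (S : Set X), ∃ x ∈ B i, Free R S → #S < 𝔠 → Free R (insert x S) := by
    intro i S
    by_contra c
    push Not at c
    obtain ⟨x0, hx0⟩ : (B i).Nonempty := by
      rw [← nonempty_coe_sort, ← mk_ne_zero_iff]
      exact (continuum_pos.trans_le (hB i).2).ne'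
    obtain ⟨h1, h2, -⟩ := c x0 hx0
    have cov : B i ⊆ ⋃ F : Finset S, {x ∈ B i | ¬ Free R (insert x (Subtype.val '' (F : Set S)))} := by
      intro x hx
      have := (c x hx).2.2
      simp only [Free, not_forall] at this
      obtain ⟨k, f, a, b, d⟩ := this
      refine mem_iUnion.2 ⟨((finite_range f).preimage Subtype.val_injective.injOn).toFinset, hx,
        fun e => d (e k f a fun j => ?_)⟩
      exact (b j).imp id fun q => ⟨⟨f j, q⟩, by simp, rfl⟩
    have le := (mk_le_mk_of_subset cov).trans (mk_iUnion_le _)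
    refine absurd ((hB i).2.trans le) (not_le.2 (mul_lt_of_lt aleph0_le_continuum ?_ ?_))
    · cases finite_or_infinite S
      · exact (lt_aleph0_of_finite _).trans aleph0_lt_continuum
      · rwa [mk_finset_of_infinite]
    · refine lt_of_le_of_lt (ciSup_le' fun F => ?_) aleph0_lt_continuum
      exact (hs _ (F.finite_toSet.image _) (h1.mono (by simp)) _ ((hB i).1.mono fun _ a => a.1)
        fun _ a => a.2).le_aleph0
  choose st s1 s2 using step
  obtain ⟨_, _, ho⟩ := exists_ord_eq_type_lt ι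
  let g : ι → X := wellFounded_lt.fix fun i g => st i (range fun j : Iio i => g j.1 j.2)
  have hg : ∀ i, g i = st i (g '' Iio i) := fun i => by
    rw [image_eq_range]
    exact wellFounded_lt.fix_eq _ i
  have top : ∀ {S : Set ι}, (∀ j ∈ S, Free R (g '' Iic j)) → Free R (g '' S) := by
    intro S h k f a b
    choose j hj e using b
    have : Nonempty (Fin (n k)) := ⟨⟨0, hn k⟩⟩
    obtain ⟨i, hi⟩ := Finite.exists_max j
    exact h _ (hj i) k f a fun l => ⟨j l, hi l, e l⟩
  have all : ∀ i, Free R (g '' Iic i) := fun i => by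
    induction i using WellFoundedLT.induction with
    | ind i ih =>
      rw [← Iio_insert, image_insert_eq, hg i]
      exact s2 _ _ (top ih) (mk_image_le.trans_lt ((mk_Iio_lt i ho).trans_le hι))
  exact ⟨g '' univ, top fun j _ => all j, fun i => ⟨g i, ⟨i, trivial, rfl⟩, hg i ▸ s1 _ _⟩⟩

theorem main [TopologicalSpace X] [PolishSpace X] [PerfectSpace X]
    {R : ∀ k : ℕ, Set (Fin (n k) → X)} (hn : ∀ k, 1 ≤ n k) (hR : ∀ k, IsMeagre (R k))
    (hG : ∀ k, IsGδ (R k)ᶜ)
    (hs : ∀ F : Set X, F.Finite → Free R F → ∀ B, Free R B →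
      (∀ x ∈ B, ¬ Free R (insert x F)) → B.Countable) :
    ∃ A : Set X, Dense A ∧ (∀ C : Set A, IsClosed C → BaireSpace C) ∧ Free R A := by
  classical
  have t1 : ∀ U : {U ∈ TopologicalSpace.countableBasis X | U.Nonempty},
      ∃ B ⊆ U.1, Free R B ∧ 𝔠 ≤ #B := by
    rintro ⟨U, hU, hne⟩
    have o := TopologicalSpace.isOpen_of_mem_countableBasis hU
    have := o.polishSpace
    have := perfectSpace_of o.preperfect
    have := hne.to_subtype
    simpa using exists_big (ι := (Subtype.val : U → X)) Subtype.val_injective fun k =>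
      (hR k).preimage_of_isOpenMap (by fun_prop)
        (IsOpenMap.piMap (fun _ => o.isOpenMap_subtype_val) (by simp))
  have t2 : ∀ q : {q : ℕ → X // Preperfect (range q) ∧ Free R (range q)},
      ∃ B ⊆ closure (range q.1) \ range q.1, Free R B ∧ 𝔠 ≤ #B := by
    rintro ⟨q, h1, h2⟩
    have := (isClosed_closure (s := range q)).polishSpace
    have := perfectSpace_of h1.perfect_closure.acc
    have := (range_nonempty q).closure.to_subtype
    have d : Dense (Subtype.val ⁻¹' range q : Set (closure (range q))) := by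
      rw [Subtype.dense_iff, Subtype.image_preimage_coe, inter_eq_right.2 subset_closure]
    obtain ⟨B, a, b, c⟩ := exists_big (R := R) (ι := (Subtype.val : closure (range q) → X))
      Subtype.val_injective fun k => residual_of_dense_Gδ ((hG k).preimage (by fun_prop))
        ((dense_inj d _).mono fun f hf => h2 k _ (Subtype.val_injective.comp hf.1) hf.2)
    refine ⟨B \ range q, sdiff_subset_sdiff_left (by simpa using a), b.mono sdiff_subset, ?_⟩
    by_contra l
    exact absurd (c.trans (le_mk_sdiff_add_mk B (range q))) (not_le.2 (add_lt_of_lt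
      aleph0_le_continuum (not_le.1 l) ((countable_range q).le_aleph0.trans_lt aleph0_lt_continuum)))
  choose B1 a1 b1 using t1
  choose B2 a2 b2 using t2
  let := TopologicalSpace.upgradeIsCompletelyMetrizable X
  have hX : #X ≤ 𝔠 := by
    obtain ⟨f, hf⟩ := TopologicalSpace.exists_embedding_l_infty X
    refine (mk_le_of_injective (f := fun x => (f x : ℕ → ℝ))
      (DFunLike.coe_injective.comp hf.injective)).trans_eq ?_
    simp [mk_real]
  obtain ⟨A, hA, hm⟩ := bernstein hn hs (ι := _ ⊕ _) (by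
    rw [mk_sum, lift_id, lift_id]
    refine (add_le_add ?_ ((mk_subtype_le _).trans ?_)).trans_eq continuum_add_self
    · exact ((TopologicalSpace.countable_countableBasis X).mono fun _ a => a.1).le_aleph0.trans
        aleph0_le_continuum
    · rw [← power_def, mk_nat]
      exact (power_le_power_right hX).trans_eq continuum_power_aleph0) (Sum.elim B1 B2)
    (Sum.rec b1 b2)
  · refine ⟨A, (TopologicalSpace.isBasis_countableBasis X).dense_iff.2 fun U hU hne => ?_,
      fun C hC => ?_, hA⟩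
    · obtain ⟨x, h1, h2⟩ := hm (Sum.inl ⟨U, hU, hne⟩)
      exact ⟨x, a1 _ h2, h1⟩
    · by_contra nb
      obtain ⟨Q, c1, c2, c3, c4⟩ := hurewicz nb
      obtain ⟨q, rfl⟩ := c1.exists_eq_range c2
      have e : IsEmbedding fun z : C => z.1.1 := IsEmbedding.subtypeVal.comp IsEmbedding.subtypeVal
      obtain ⟨x, h1, h2⟩ := hm (Sum.inr ⟨fun m => (q m).1.1, preperfect_iff_nhds.2 (by
        rintro _ ⟨m, rfl⟩ U hU
        obtain ⟨_, ⟨k1, l, rfl⟩, k2⟩ := preperfect_iff_nhds.1 c4 _ (mem_range_self m) _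
          (e.continuous.continuousAt.preimage_mem_nhds hU)
        exact ⟨_, ⟨k1, l, rfl⟩, fun k => k2 (e.injective k)⟩),
        hA.mono (by rintro _ ⟨m, rfl⟩; exact (q m).1.2)⟩)
      obtain ⟨h3, h4⟩ := a2 _ h2
      have k1 : (⟨x, h1⟩ : A) ∈ C := by
        rw [← hC.closure_eq, closure_subtype]
        exact closure_mono (by rintro _ ⟨m, rfl⟩; exact ⟨_, (q m).2, rfl⟩) h3
      have k2 : (⟨_, k1⟩ : C) ∈ range q := by
        rw [← c3.closure_eq, e.closure_eq_preimage_closure_image, ← range_comp]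
        exact h3
      obtain ⟨m, hm⟩ := k2
      exact h4 ⟨m, congrArg (fun z : C => z.1.1) hm⟩

end Pool.Agent.MP_2aae10_lc.H6
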